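import Pool.Agent.helper58.ZB.SpecN

/-!
# Project ZB (MP_baa4d7_al), block N, row zn:PLT
-/

set_option autoImplicit false

namespace Pool.Agent.GB

open Pool.Agent.helper58.DC Pool.Agent.DI Pool.Agent.GR Pool.Agent.OB Pool.Agent.DR Pool.Agent.FI Pool.Agent.FI3 Pool.Agent.FI4 Pool.Agent.LE Pool.Agent.BR

theorem PLT_pow {G : Type} [Group G] (p : ℕ) (hp : p.Prime) (u : G) (k : ℕ) (hu : u ^ p ^ k = 1)
    (s : ℕ) (hs : ¬ p ∣ s) : ∃ t : ℕ, (u ^ s) ^ t = u := by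
  have hco : Nat.Coprime s (p ^ k) := (Nat.Coprime.pow_left k ((Nat.Prime.coprime_iff_not_dvd hp).2 hs)).symm
  have hco2 : Nat.Coprime (orderOf u) s := (Nat.Coprime.coprime_dvd_right (orderOf_dvd_of_pow_eq_one hu) hco).symm
  exact exists_pow_eq_self_of_coprime hco2.symm

theorem PLT_Cz {G : Type} [Group G] (p : ℕ) (hp : p.Prime) (u : G) (k : ℕ) (hu : u ^ p ^ k = 1)
    (s : ℕ) (hs : ¬ p ∣ s) : Cz (⊤ : Subgroup G) (u ^ s) = Cz (⊤ : Subgroup G) u := by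
  obtain ⟨t, ht⟩ := PLT_pow p hp u k hu s hs
  ext x
  rw [mem_Cz, mem_Cz]
  constructor
  · rintro ⟨hx, h⟩
    refine ⟨hx, ?_⟩
    have h1 : Commute (u ^ s) x := h
    have h2 := h1.pow_left t
    rw [ht] at h2
    exact h2
  · rintro ⟨hx, h⟩
    have h1 : Commute u x := h
    exact ⟨hx, h1.pow_left s⟩

theorem PLT (hPPZ : PPZ_stmt) (hZLG : ZLG_stmt) (hDFZ : DFZ_stmt) : PLT_stmt := by
  intro p M hM G _ _ D T x θ χ hZ u hu ψ hψ ψ' hψ' n hn hun ζ hζ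
  have huD : u ∈ D := hZ.tle hu
  have huC : u ∈ cz D := hZ.tcz hu
  obtain ⟨k, hk⟩ := hZ.rt.dfa.pgrp ⟨u, huD⟩
  have hk' : u ^ p ^ k = 1 := congrArg Subtype.val hk
  have hDK : D ≤ Cz (⊤ : Subgroup G) u := by
    intro g hg
    rw [mem_Cz]
    exact ⟨Subgroup.mem_top g, ((Subgroup.mem_centralizer_iff.1 huC) g hg).symm⟩
  have hCK : cz D ≤ Cz (⊤ : Subgroup G) u := by
    intro g hg
    rw [mem_Cz]
    exact ⟨Subgroup.mem_top g, (Subgroup.mem_centralizer_iff.1 hg) u huD⟩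
  obtain ⟨P, hP⟩ := hPPZ p M hM G θ (Nat.card D) u (fun η hη η' hη' => by
    obtain ⟨x', -, -, hdef⟩ := hDFZ p M hM G D x θ χ hZ.rt (Cz (⊤ : Subgroup G) u) hDK hCK η hη.1 hη.2.symm
    exact hZLG p M hM G (Cz (⊤ : Subgroup G) u) D x' η hη.1 hdef η' hη') ψ hψ ψ' hψ' n hn hun ζ hζ
  exact ⟨P, fun s hs => hP s (PLT_Cz p hM.1 u k hk' s hs)⟩

end Pool.Agent.GB
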